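import Pool.Agent.V5helper20.KS.Stm3
import Pool.Agent.V5helper11.KX.FNM
import Pool.Agent.R225.LP.ZR

/-!
# Project KS, job SQR: squares
-/

set_option autoImplicit false

namespace Pool.Agent.V5helper39.KS

open Complex
open Pool.Agent.W780.PG (IsConvexPolygon region)
open Pool.Agent.W703.GP (Isospectral)
open Pool.Agent.R225.LP (Cg rect)
open Pool.Agent.N275.GP
open Pool.Agent.V5helper71.QB
open Pool.Agent.V5helper20.KX (S_MOT)
open Pool.Agent.V5helper20.KS (S_SQR)
open scoped Real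

theorem ip_rot (u v : ℂ) (r s : ℝ) :
    ip (-I * (u / (r : ℂ))) (-I * (v / (s : ℂ))) = ip u v / (r * s) := by
  have h1 : u / (r : ℂ) = ((u.re / r : ℝ) : ℂ) + ((u.im / r : ℝ) : ℂ) * I := by
    apply Complex.ext <;> simp [Complex.div_ofReal_re, Complex.div_ofReal_im]
  have h2 : v / (s : ℂ) = ((v.re / s : ℝ) : ℂ) + ((v.im / s : ℝ) : ℂ) * I := by
    apply Complex.ext <;> simp [Complex.div_ofReal_re, Complex.div_ofReal_im]
  rw [h1, h2]
  unfold ip
  simp only [neg_mul, Complex.neg_re, Complex.neg_im, Complex.mul_re, Complex.mul_im, Complex.I_re, Complex.I_im,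
    Complex.add_re, Complex.add_im, Complex.ofReal_re, Complex.ofReal_im]
  rcases eq_or_ne r 0 with rfl | hr
  · simp
  rcases eq_or_ne s 0 with rfl | hs
  · simp
  field_simp
  ring

theorem side_rect (a : ℝ) : (rect a a (0 + 1) - rect a a 0 = (a : ℂ)) ∧ (rect a a (1 + 1) - rect a a 1 = (a : ℂ) * I) ∧
    (rect a a (2 + 1) - rect a a 2 = -(a : ℂ)) ∧ (rect a a (3 + 1) - rect a a 3 = -((a : ℂ) * I)) := by
  have e0 : rect a a 0 = 0 := rfl
  have e1 : rect a a 1 = (a : ℂ) := rfl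
  have e2 : rect a a 2 = (a : ℂ) + (a : ℂ) * I := rfl
  have e3 : rect a a 3 = (a : ℂ) * I := rfl
  have f1 : (0 + 1 : Fin (1 + 3)) = 1 := rfl
  have f2 : (1 + 1 : Fin (1 + 3)) = 2 := rfl
  have f3 : (2 + 1 : Fin (1 + 3)) = 3 := rfl
  have f4 : (3 + 1 : Fin (1 + 3)) = 0 := rfl
  rw [f1, f2, f3, f4, e0, e1, e2, e3]
  refine ⟨by ring, by ring, by ring, by ring⟩

theorem ln_rect {a : ℝ} (ha : 0 < a) (i : Fin (1 + 3)) : ln (rect a a) i = a := by
  obtain ⟨h0, h1, h2, h3⟩ := side_rect a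
  have ha' : ‖(a : ℂ)‖ = a := by rw [Complex.norm_real, Real.norm_eq_abs, abs_of_pos ha]
  unfold ln
  fin_cases i
  · show ‖rect a a (0 + 1) - rect a a 0‖ = a
    rw [h0, ha']
  · show ‖rect a a (1 + 1) - rect a a 1‖ = a
    rw [h1, norm_mul, Complex.norm_I, mul_one, ha']
  · show ‖rect a a (2 + 1) - rect a a 2‖ = a
    rw [h2, norm_neg, ha']
  · show ‖rect a a (3 + 1) - rect a a 3‖ = a
    rw [h3, norm_neg, norm_mul, Complex.norm_I, mul_one, ha']

theorem om_rect {a : ℝ} (i : Fin (1 + 3)) : om (rect a a) i = π / 2 := by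
  obtain ⟨h0, h1, h2, h3⟩ := side_rect a
  have key : ip (nu (rect a a) (i - 1)) (nu (rect a a) i) = 0 := by
    unfold nu
    rw [ip_rot]
    have : ip (rect a a (i - 1 + 1) - rect a a (i - 1)) (rect a a (i + 1) - rect a a i) = 0 := by
      fin_cases i
      · show ip (rect a a (3 + 1) - rect a a 3) (rect a a (0 + 1) - rect a a 0) = 0
        rw [h3, h0]
        simp [ip]
      · show ip (rect a a (0 + 1) - rect a a 0) (rect a a (1 + 1) - rect a a 1) = 0
        rw [h0, h1]
        simp [ip]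
      · show ip (rect a a (1 + 1) - rect a a 1) (rect a a (2 + 1) - rect a a 2) = 0
        rw [h1, h2]
        simp [ip]
      · show ip (rect a a (2 + 1) - rect a a 2) (rect a a (3 + 1) - rect a a 3) = 0
        rw [h2, h3]
        simp [ip]
    rw [this, zero_div]
  unfold om tg
  rw [key]
  simp

theorem t_SQR : S_SQR := by
  intro hANG hMOT p hp hom hln m q hq hiso
  obtain ⟨ho, hsum, -⟩ := hANG 1 1 p p hp hp (fun _ => rfl)
  have hom' : ∀ i, om p i = π / 2 := by
    intro i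
    have h1 : ∑ j, om p j = ∑ _j : Fin (1 + 3), om p i := Finset.sum_congr rfl fun j _ => hom j i
    rw [h1, Finset.sum_const, Finset.card_univ, Fintype.card_fin] at hsum
    simp only [nsmul_eq_mul] at hsum
    push_cast at hsum
    linarith
  have ha : 0 < ln p 0 := by
    have h1 := hp.pos 0 2 (by decide) (by decide)
    rcases (norm_nonneg (p (0 + 1) - p 0)).lt_or_eq with h | h
    · exact h
    · exfalso
      have h2 : p (0 + 1) = p 0 := by
        rw [← sub_eq_zero, ← norm_eq_zero]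
        exact h.symm
      rw [h2] at h1
      unfold Pool.Agent.W780.PG.lft at h1
      simp at h1
  have hMo := hMOT 1 p (rect (ln p 0) (ln p 0)) hp (Pool.Agent.R225.LP.ZR.convex_rect ha ha)
    (fun i => by rw [om_rect, hom']) (fun i => by rw [ln_rect ha, hln i 0])
  have hCg := Pool.Agent.V5helper11.KX.mo_cg hMo
  have hCg2 : Cg (region (rect (ln p 0) (ln p 0))) (region q) :=
    Pool.Agent.R225.LP.rectangle ha le_rfl hq (fun k => ((hCg.iso k).symm.trans (hiso k)))
  obtain ⟨φ, hφ⟩ := hCg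
  obtain ⟨ψ, hψ⟩ := hCg2
  exact ⟨φ.trans ψ, by rw [← hψ, ← hφ, ← Set.image_comp]; rfl⟩

end Pool.Agent.V5helper39.KS
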